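import Pool.Agent.H836_PV.Fin

/-!
# Euler fluid limit of the strict microcanonical point vortex ensemble (MP_fa244c_mp, Q1)

All definitions are in `Pool/Agent/H836_PV/Defs.lean`.
-/

open MeasureTheory Filter Topology Set Metric Pool.Agent.H836_PV

namespace Pool.Agent.Results.MP_fa244c_mp.StrictMicrocanonical

/-- `Λ` is a bounded connected domain with piecewise regular boundary, `G` its Green's function, `ε > 0`,
`N = 2 M` vortices, energy `N² ε`. -/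
theorem result (Λ : Set ℂ) (hΛ : Dom Λ) (G : ℂ → ℂ → ℝ) (hG : IsGreen Λ G) (ε : ℝ) (hε : 0 < ε) :
    -- the maximum defining `s_Λ(ε)` is attained
    (∃ ρ₁ ρ₂, IsMaxPair Λ G ε ρ₁ ρ₂) ∧
    -- a maximizing pair is never unique: exchanging the two densities gives another one
    (∀ ρ₁ ρ₂, IsMaxPair Λ G ε ρ₁ ρ₂ →
      IsMaxPair Λ G ε ρ₂ ρ₁ ∧ ¬ (∀ᵐ z ∂volume.restrict Λ, ρ₁ z = ρ₂ z)) ∧
    -- for large `N`, `Φ_Λ(·, N)` is differentiable and the measure `μ^(N, N² ε)` exists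
    (∀ᶠ M : ℕ in atTop, (∀ E, DifferentiableAt ℝ (Phi Λ G M) E) ∧
      ∃! μ : Measure (Conf M), IsMicro Λ G M ((2 * (M : ℝ)) ^ 2 * ε) μ) ∧
    -- (a)
    (∀ ρ₁ ρ₂, IsMaxPair Λ G ε ρ₁ ρ₂ →
      Tendsto (fun M : ℕ => 1 / (2 * (M : ℝ)) *
        Real.log (deriv (Phi Λ G M) ((2 * (M : ℝ)) ^ 2 * ε) / (volume Λ).toReal ^ (2 * M)))
        atTop (𝓝 (1 / 2 * (entr Λ ρ₁ + entr Λ ρ₂)))) ∧
    -- (b)
    ∀ μ : ∀ M : ℕ, Measure (Conf M),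
      (∀ᶠ M : ℕ in atTop, IsMicro Λ G M ((2 * (M : ℝ)) ^ 2 * ε) (μ M)) →
      -- every sequence has a subsequence along which all marginals converge to those of a mixture
      (∀ N : ℕ → ℕ, (∀ k, 0 < N k) → Tendsto N atTop atTop →
        ∃ φ : ℕ → ℕ, StrictMono φ ∧ MixConv Λ G ε (N ∘ φ) (fun k => μ (N (φ k)))) ∧
      -- the whole sequence of marginals gets arbitrarily close to finite convex combinations
      (∀ (L : ℕ) (p r : Fin L → ℕ) (f : ∀ l, (Fin (p l) ⊕ Fin (r l) → ℂ) → ℝ),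
        (∀ l, ContinuousOn (f l) {y | ∀ i, y i ∈ Λ}) →
        (∀ l, ∃ C, ∀ y, (∀ i, y i ∈ Λ) → |f l y| ≤ C) → ∀ κ : ℝ, 0 < κ →
        ∀ᶠ M : ℕ in atTop, ∃ (n : ℕ) (w : Fin n → ℝ) (ρ₁ ρ₂ : Fin n → ℂ → ℝ),
          (∀ i, 0 ≤ w i) ∧ ∑ i, w i = 1 ∧ (∀ i, IsMaxPair Λ G ε (ρ₁ i) (ρ₂ i)) ∧
          ∀ l, ∀ (a : Fin (p l) → Fin M) (b : Fin (r l) → Fin M), Function.Injective a →
            Function.Injective b →
            |(∫ x, f l (pick a b x) ∂(μ M)) - ∑ i, w i * prodInt Λ (f l) (ρ₁ i) (ρ₂ i)| ≤ κ) ∧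
      -- if the pair is unique up to exchange, the whole sequence of marginals converges
      (∀ ρ₁ ρ₂, IsMaxPair Λ G ε ρ₁ ρ₂ →
        (∀ σ₁ σ₂, IsMaxPair Λ G ε σ₁ σ₂ →
          ((∀ᵐ z ∂volume.restrict Λ, σ₁ z = ρ₁ z) ∧ (∀ᵐ z ∂volume.restrict Λ, σ₂ z = ρ₂ z)) ∨
          ((∀ᵐ z ∂volume.restrict Λ, σ₁ z = ρ₂ z) ∧ (∀ᵐ z ∂volume.restrict Λ, σ₂ z = ρ₁ z))) →
        ∀ (p r : ℕ) (f : (Fin p ⊕ Fin r → ℂ) → ℝ), ContinuousOn f {y | ∀ i, y i ∈ Λ} →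
          (∃ C, ∀ y, (∀ i, y i ∈ Λ) → |f y| ≤ C) → ∀ κ : ℝ, 0 < κ →
          ∀ᶠ M : ℕ in atTop, ∀ (a : Fin p → Fin M) (b : Fin r → Fin M),
            Function.Injective a → Function.Injective b →
            |(∫ x, f (pick a b x) ∂(μ M)) -
              1 / 2 * (prodInt Λ f ρ₁ ρ₂ + prodInt Λ f ρ₂ ρ₁)| ≤ κ) ∧
      -- the empirical averages are close to those of a maximizing pair, with probability
      -- exponentially close to one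
      (∀ (L : ℕ) (f : Fin L → ℂ → ℝ), (∀ l, ContinuousOn (f l) Λ) →
        (∀ l, ∃ C, ∀ z ∈ Λ, |f l z| ≤ C) → ∀ κ : ℝ, 0 < κ → ∃ c : ℝ, 0 < c ∧
        ∀ᶠ M : ℕ in atTop, μ M {x | ¬ ∃ ρ₁ ρ₂, IsMaxPair Λ G ε ρ₁ ρ₂ ∧
          ∀ l, |1 / (M : ℝ) * ∑ j, f l (x (Sum.inl j)) - ∫ z in Λ, f l z * ρ₁ z| < κ ∧
            |1 / (M : ℝ) * ∑ j, f l (x (Sum.inr j)) - ∫ z in Λ, f l z * ρ₂ z| < κ} ≤
          ENNReal.ofReal (Real.exp (-(c * M)))) := by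
  obtain ⟨g, D, C₃, cL, CB, hK, hGK⟩ := allP Λ G hΛ hG
  have hm : MeasurableSet Λ := hΛ.isOpen.measurableSet
  have hmax : IsMaxPair Λ G ε = IsMaxPair Λ (K g) ε := fin_max_congr hm hGK ε
  have hex : ∃ ρ₁ ρ₂, IsMaxPair Λ (K g) ε ρ₁ ρ₂ := fin_exists_max hK hε
  obtain ⟨hFa1, hFa2⟩ := allFa Λ G g D C₃ cL CB hK hGK ε hε
  refine ⟨by rw [hmax]; exact hex, fun ρ₁ ρ₂ h => ⟨fin_swap h, fin_ne hε h⟩, hFa1, ?_, ?_⟩
  · intro ρ₁ ρ₂ h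
    rw [hmax] at h
    have e : 1 / 2 * (entr Λ ρ₁ + entr Λ ρ₂) = sL Λ (K g) ε :=
      le_antisymm (Adm.le_sL taskS0 hK h.1) (Fb_max_sL h)
    rw [e]
    exact hFa2
  · intro μ hμ
    have hb := allFb Λ G g D C₃ cL CB hK hGK ε hε hex μ hμ
    refine ⟨?_, ?_, ?_, ?_⟩
    · intro N hN0 hN
      obtain ⟨φ, hφ, h⟩ := hb N hN0 hN
      exact ⟨φ, hφ, (fin_mix_congr hm hGK ε _ _).2 h⟩
    · rw [hmax]
      exact taskFg Λ (K g) ε hΛ.isOpen μ hb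
    · rw [hmax]
      exact taskFe Λ G g D C₃ cL CB hK hGK ε hε μ hμ hb
    · rw [hmax]
      exact allFd Λ G g D C₃ cL CB hK hGK ε hε hex μ hμ

end Pool.Agent.Results.MP_fa244c_mp.StrictMicrocanonical
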